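import Mathlib
import Pool.Agent.H904R6.CR.Stmts

set_option autoImplicit false

namespace Pool.Agent.H856R3.RT

open Pool.Agent.H904R6.CR

/-- a set of auxiliary functions depending on finitely many values is closed -/
theorem isClosed_dep (k : ℕ) (P : Cs → Prop) (h : ∀ C D : Cs, agA k C D → P C → P D) :
    IsClosed {C : Cs | P C} := by
  rw [← isOpen_compl_iff, isOpen_iff_forall_mem_open]
  intro C hC
  refine ⟨⋂ x ∈ Finset.range k, (fun D : Cs => D x) ⁻¹' {C x}, ?_, ?_, ?_⟩
  · intro D hD hPD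
    apply hC
    refine h D C ?_ hPD
    intro n hn
    have := Set.mem_iInter₂.1 hD n (Finset.mem_range.2 hn)
    exact this
  · refine isOpen_biInter_finset ?_
    intro x _
    exact (isOpen_discrete _).preimage (continuous_apply x)
  · refine Set.mem_iInter₂.2 ?_
    intro x _
    rfl

/-- a fan lemma for classes of auxiliary functions -/
theorem fan (P : ℕ → Cs → Prop) (hdep : ∀ k C D, agA k C D → P k C → P k D)
    (hmono : ∀ k C, P (k + 1) C → P k C) (hne : ∀ k, ∃ C, P k C) : ∃ C, ∀ k, P k C := by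
  have := IsCompact.nonempty_iInter_of_sequence_nonempty_isCompact_isClosed
    (fun k => {C : Cs | P k C}) (fun k C hC => hmono k C hC) (fun k => hne k)
    ((isClosed_dep 0 (P 0) (hdep 0)).isCompact) (fun k => isClosed_dep k (P k) (hdep k))
  obtain ⟨C, hC⟩ := this
  exact ⟨C, fun k => Set.mem_iInter.1 hC k⟩

theorem agA_symm {k : ℕ} {C D : Cs} (h : agA k C D) : agA k D C := fun n hn => (h n hn).symm

theorem ag_refl (k : ℕ) (Z : Om) : ag k Z Z :=
  ⟨fun _ _ _ _ => rfl, fun _ _ _ _ => rfl, fun _ _ => rfl, fun _ _ => rfl⟩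

theorem taskA : TaskA := by
  intro hW Bs Fm hFam A f g X0 Γ1 F1 hΓ hgood hN0 X hX hsub m
  by_contra hcon
  have hcon' : ∀ M, ¬ Large Γ1 F1 ⟨f, g, X, zC⟩ m M := fun M h => hcon ⟨M, h⟩
  have hcol : ∀ M, ∃ c : ℕ → ℕ, (∀ x, c x < 2 * m + 10) ∧
      ∀ i E v, KK Γ1 F1 ⟨f, g, X, zC⟩ m M E v → ¬ ∀ x ∈ E, c x = i := by
    intro M
    have := hcon' M
    unfold Large at this
    push Not at this
    obtain ⟨c, hc, h⟩ := this
    refine ⟨c, hc, ?_⟩
    intro i E v hK hall
    obtain ⟨x, hx, hne⟩ := h i E v hK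
    exact hne (hall x hx)
  choose c hc1 hc2 using hcol
  have hO : objA Γ1 F1 m ∈ Fm := hFam.bA Γ1 hΓ F1 m
  have hG := hFam.good _ hO
  -- the class is nonempty
  have hne : ∃ C, ∀ k, ¬ (objA Γ1 F1 m).o k C ⟨f, g, X, zC⟩ := by
    apply fan (fun k C => ¬ (objA Γ1 F1 m).o k C ⟨f, g, X, zC⟩)
    · intro k C D hCD h1 h2
      exact h1 (hG.ho k D C _ _ (ag_refl k _) (agA_symm hCD) h2)
    · intro k C h1 h2
      exact h1 (hG.hom k (k + 1) C _ (Nat.le_succ k) h2)
    · intro k
      refine ⟨fun x => if h : m ≤ x then ⟨c k x, by have := hc1 k x; omega⟩ else 0, ?_⟩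
      rintro (⟨x, _, hmx, hx⟩ | ⟨M, hM, E, v, i, hK, hall⟩)
      · simp only [dif_pos hmx] at hx
        have := hc1 k x
        omega
      · obtain ⟨h1, h2, h3, h4, h5, h6⟩ := hK
        refine hc2 k i E v ⟨h1, ?_, h3, h4, lt_of_lt_of_le h5 hM, hgood.mono _ _ _ _ _ hM h6⟩ ?_
        · intro x hx
          exact ⟨(h2 x hx).1, lt_of_lt_of_le (h2 x hx).2.1 hM, (h2 x hx).2.2⟩
        · intro x hx
          have := hall x hx
          simp only [dif_pos (h2 x hx).1] at this
          exact this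
  obtain ⟨C, hC1, hC2⟩ := hW Bs Fm hFam A ⟨f, g, X, zC⟩ (objA Γ1 F1 m) hO hne hX.2
  -- values are bounded
  have hbd : ∀ x, m ≤ x → (C x : ℕ) < 2 * m + 10 := by
    intro x hx
    by_contra h
    exact hC1 (x + 1) (Or.inl ⟨x, Nat.lt_succ_self x, hx, not_lt.1 h⟩)
  -- pigeonhole
  have hpig : ∃ i < 2 * m + 10, {x | X x = true ∧ m ≤ x ∧ (C x : ℕ) = i}.Infinite := by
    by_contra hno
    push Not at hno
    have hfin : (⋃ i ∈ Finset.range (2 * m + 10),
        {x | X x = true ∧ m ≤ x ∧ (C x : ℕ) = i}).Finite := by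
      refine Set.Finite.biUnion (Finset.finite_toSet _) ?_
      intro i hi
      exact hno i (Finset.mem_range.1 hi)
    apply hX.1
    refine ((Set.finite_lt_nat m).union hfin).subset ?_
    intro x hx
    by_cases hmx : x < m
    · exact Or.inl hmx
    · refine Or.inr ?_
      refine Set.mem_iUnion₂.2 ⟨(C x : ℕ), Finset.mem_range.2 (hbd x (not_lt.1 hmx)), hx, not_lt.1 hmx, rfl⟩
  obtain ⟨i, _, hi⟩ := hpig
  have hAl : Al Fm A f g (fun x => X x && decide ((C x : ℕ) = i)) := by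
    constructor
    · refine hi.mono ?_
      intro x hx
      show (X x && decide ((C x : ℕ) = i)) = true
      simp only [Bool.and_eq_true, decide_eq_true_eq]
      exact ⟨hx.1, hx.2.2⟩
    · intro T hT
      exact hC2 (sub (ph1 i) T) (hFam.p1 i T hT)
  have hS : Sub (fun x => X x && decide ((C x : ℕ) = i)) X0 := by
    intro x hx
    simp only [Bool.and_eq_true, decide_eq_true_eq] at hx
    exact hsub x hx.1
  obtain ⟨M, E, v, h1, h2, h3, h4, h5, h6⟩ := hN0 _ hAl hS m
  refine hC1 M (Or.inr ⟨M, le_refl M, E, v, i, ⟨h1, ?_, h3, h4, h5, h6⟩, ?_⟩)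
  · intro x hx
    have := h2 x hx
    simp only [Bool.and_eq_true, decide_eq_true_eq] at this
    exact ⟨this.1, this.2.1, this.2.2.1⟩
  · intro x hx
    have := h2 x hx
    simp only [Bool.and_eq_true, decide_eq_true_eq] at this
    exact this.2.2.2

end Pool.Agent.H856R3.RT
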